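import Pool.Agent.W434.BW.StmA

set_option autoImplicit false

/-! Project BW: BW-Z1. -/

namespace Pool.Agent.W885.BW

open Pool.Agent.W434.BW

theorem z1 : S_z1 := by
  classical
  intro Ω ar X Y a b R hid hR hex hB x hx hmem
  obtain ⟨t, ht⟩ := hmem
  replace ht : t.ev (prodA a a) (fun g => g.1) = (x, x) := ht
  rw [ev_prod] at ht
  have ht1 := congrArg Prod.fst ht
  have ht2 := congrArg Prod.snd ht
  simp only at ht1 ht2
  -- the two classes of generators
  have hgen : ∀ g : {p : X × X | (p.1 = x ∧ ∀ y, R p.2 y) ∨ ((∀ y, R p.1 y) ∧ p.2 = x)},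
      (g.1.1 = x ∧ ∀ y, R g.1.2 y) ∨ ((∀ y, R g.1.1 y) ∧ g.1.2 = x) := fun g => g.2
  have hD : Sub b {y | R x y} := by
    intro ω z hz
    have h := hR ω (fun _ => x) z (fun i => hz i)
    rw [hid] at h
    exact h
  have huniv : {y | R x y} = Set.univ := by
    refine hB _ hD (hex x) ⟨t.bind (fun g => if (g.1.1 = x ∧ ∀ y, R g.1.2 y) then .var 0
      else .var 1), ?_⟩
    intro y hy y'
    have hy : R x y := hy
    constructor
    · show R x _
      rw [ev_bind]
      have h := ev_rel hR t (fun g => g.1.1) (fun g => Tm.ev b ![y, y']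
        (if (g.1.1 = x ∧ ∀ y, R g.1.2 y) then .var 0 else .var 1)) (by
        intro g
        by_cases hg : g.1.1 = x ∧ ∀ y, R g.1.2 y
        · rw [if_pos hg]
          show R g.1.1 y
          rw [hg.1]
          exact hy
        · rw [if_neg hg]
          show R g.1.1 y'
          exact ((hgen g).resolve_left hg).1 y')
      rw [ht1] at h
      exact h
    · show R x _
      rw [ev_bind]
      have h := ev_rel hR t (fun g => g.1.2) (fun g => Tm.ev b ![y', y]
        (if (g.1.1 = x ∧ ∀ y, R g.1.2 y) then .var 0 else .var 1)) (by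
        intro g
        by_cases hg : g.1.1 = x ∧ ∀ y, R g.1.2 y
        · rw [if_pos hg]
          show R g.1.2 y'
          exact hg.2 y'
        · rw [if_neg hg]
          show R g.1.2 y
          rw [((hgen g).resolve_left hg).2]
          exact hy)
      rw [ht2] at h
      exact h
  apply hx
  intro y
  have h : y ∈ {y | R x y} := by rw [huniv]; trivial
  exact h

end Pool.Agent.W885.BW
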